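import Pool.Agent.Run7.h46.V.Defs

/-! Piece V1 (helper930): the components are the blocks. -/

set_option autoImplicit false

namespace Run7.h930.V

open Run7.h46.V Set Filter Function

theorem main_V1 : StV1 := by
  intro C I d blk lab δ hS hfin hcr hlab hcon
  have ha : ∀ y' y, lab y' = lab y → AE d y' y := by
    intro y' y h
    have h1 : ∀ᶠ v in cofinite, blk v ≠ blk y' := by
      have := (hfin (blk y')).compl_mem_cofinite
      filter_upwards [this] with v hv
      exact hv
    have h2 : ∀ᶠ v in cofinite, blk v ≠ blk y := by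
      have := (hfin (blk y)).compl_mem_cofinite
      filter_upwards [this] with v hv
      exact hv
    filter_upwards [h1, h2] with v hv1 hv2
    rw [hcr y' v hv1.symm, hcr y v hv2.symm, h]
  have hb : ∀ y' y, AE d y' y → ∀ x, δ (lab x) (lab y') = δ (lab x) (lab y) := by
    intro y' y h x
    have h1 : ∀ᶠ v in cofinite, blk v ≠ blk y' := by
      filter_upwards [(hfin (blk y')).compl_mem_cofinite] with v hv
      exact hv
    have h2 : ∀ᶠ v in cofinite, blk v ≠ blk y := by
      filter_upwards [(hfin (blk y)).compl_mem_cofinite] with v hv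
      exact hv
    have h3 : ∃ᶠ v in cofinite, lab v = lab x := frequently_cofinite_iff_infinite.2 (hlab x)
    obtain ⟨v, hv, ⟨hv1, hv2⟩, hv3⟩ := (h3.and_eventually ((h1.and h2).and h)).exists
    have h4 := hS _ _ _ _ hv3
    rw [hcr v y' hv1, hcr v y hv2, hv] at h4
    exact h4
  have hc : ∀ x y, Lk d x y ↔ d x y ≠ δ (lab x) (lab y) := by
    intro x y
    have h1 : ∀ᶠ v in cofinite, blk v ≠ blk x := by
      filter_upwards [(hfin (blk x)).compl_mem_cofinite] with v hv
      exact hv
    constructor
    · intro h h2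
      obtain ⟨v, ⟨hv1, hv2⟩, hv3⟩ := (h.and_eventually h1).exists
      apply hv2
      rw [hcr x v hv3.symm, hb v y hv1 x, h2]
    · intro h
      have h3 : ∃ᶠ v in cofinite, lab v = lab y := frequently_cofinite_iff_infinite.2 (hlab y)
      refine (h3.and_eventually h1).mono ?_
      rintro v ⟨hv1, hv2⟩
      refine ⟨ha v y hv1, ?_⟩
      rw [hcr x v hv2.symm, hv1]
      exact h.symm
  have hd : ∀ x y, Lk d x y → blk x = blk y := by
    intro x y h
    by_contra hne
    exact (hc x y).1 h (hcr x y hne)
  classical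
  ext n
  constructor
  · rintro ⟨F, rfl, ⟨x, hx⟩, h2, h3⟩
    refine ⟨x, ?_⟩
    have hsub : F.filter (fun y => blk y = blk x) = F := by
      by_contra hne
      obtain ⟨u, hu, v, hv, hvG, hl⟩ := h2 (F.filter fun y => blk y = blk x)
        (Finset.filter_subset _ _) ⟨x, Finset.mem_filter.2 ⟨hx, rfl⟩⟩ hne
      apply hvG
      rw [Finset.mem_filter] at hu ⊢
      exact ⟨hv, by rw [← hd u v hl, hu.2]⟩
    have hFs : (F : Set ℕ) ⊆ {y | blk y = blk x} := by
      intro y hy
      have hy2 : y ∈ F := hy
      rw [← hsub, Finset.mem_filter] at hy2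
      exact hy2.2
    have hFe : (F : Set ℕ) = {y | blk y = blk x} := by
      by_contra hne
      obtain ⟨u, hu, v, hv, hvG, hl⟩ := hcon x F ⟨x, hx⟩ (LE.le.ssubset_of_ne hFs hne)
      exact h3 u hu v hvG ((hc u v).2 hl)
    rw [← hFe, Set.ncard_coe_finset]
  · rintro ⟨z, rfl⟩
    refine ⟨(hfin (blk z)).toFinset, (Set.ncard_eq_toFinset_card _ (hfin (blk z))).symm, ?_, ?_, ?_⟩
    · exact ⟨z, by simp⟩
    · intro G hG hGne hGF
      have hGs : (G : Set ℕ) ⊂ {x | blk x = blk z} := by
        refine LE.le.ssubset_of_ne ?_ ?_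
        · intro x hx
          have := hG hx
          simpa using this
        · intro h
          apply hGF
          ext x
          have h2 : x ∈ (G : Set ℕ) ↔ x ∈ {x | blk x = blk z} := by rw [h]
          simpa using h2
      obtain ⟨x, hx, y, hy, hyG, hne⟩ := hcon z G hGne hGs
      exact ⟨x, hx, y, by simpa using hy, hyG, (hc x y).2 hne⟩
    · intro x hx y hy hl
      apply hy
      have hx2 : blk x = blk z := by simpa using hx
      have := hd x y hl
      simp [← this, hx2]

end Run7.h930.V
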