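import Pool.Agent.Run7.h46.V.Defs

/-! Piece V5 (helper930): `DD` and `TT` are invariant under permutations. -/

set_option autoImplicit false

namespace Run7.h930.V

open Run7.h46.V Set Filter Function

theorem ev_iff (e : Equiv.Perm ℕ) (P : ℕ → Prop) :
    (∀ᶠ v in cofinite, P (e v)) ↔ ∀ᶠ v in cofinite, P v := by
  constructor
  · intro h
    have h2 := e.symm.injective.tendsto_cofinite.eventually h
    simpa using h2
  · exact fun h => e.injective.tendsto_cofinite.eventually h

variable {C : Type} (d : ℕ → ℕ → C) (e : Equiv.Perm ℕ)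

theorem ae_iff (x y : ℕ) : AE (fun x y => d (e x) (e y)) x y ↔ AE d (e x) (e y) :=
  ev_iff e fun v => d (e x) v = d (e y) v

theorem lk_iff (x y : ℕ) : Lk (fun x y => d (e x) (e y)) x y ↔ Lk d (e x) (e y) := by
  unfold Lk
  have h : ∀ y', (AE (fun x y => d (e x) (e y)) y' y ∧ d (e x) (e y') ≠ d (e x) (e y)) ↔
      (AE d (e y') (e y) ∧ d (e x) (e y') ≠ d (e x) (e y)) := by
    intro y'
    rw [ae_iff]
  simp only [h]
  rw [Filter.Frequently, Filter.Frequently, not_iff_not]
  exact ev_iff e fun y' => ¬ (AE d y' (e y) ∧ d (e x) y' ≠ d (e x) (e y))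

theorem tw_iff (x y : ℕ) : Tw (fun x y => d (e x) (e y)) x y ↔ Tw d (e x) (e y) := by
  unfold Tw
  refine and_congr ?_ Iff.rfl
  constructor
  · intro h v hx hy
    have h2 := h (e.symm v) (fun h3 => hx (by rw [← h3, e.apply_symm_apply]))
      (fun h3 => hy (by rw [← h3, e.apply_symm_apply]))
    simpa using h2
  · intro h v hx hy
    exact h (e v) (fun h3 => hx (e.injective h3)) (fun h3 => hy (e.injective h3))

theorem cmp_map {F : Finset ℕ} (hF : Cmp (fun x y => d (e x) (e y)) F) :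
    Cmp d (F.map e.toEmbedding) := by
  obtain ⟨h1, h2, h3⟩ := hF
  refine ⟨h1.map, ?_, ?_⟩
  · intro G hG hGne hGF
    obtain ⟨x, hx, y, hy, hyG, hl⟩ := h2 (G.map e.symm.toEmbedding) (by
      intro a ha
      rw [Finset.mem_map] at ha
      obtain ⟨b, hb, rfl⟩ := ha
      obtain ⟨c, hc, hcb⟩ := Finset.mem_map.1 (hG hb)
      rw [← hcb]
      simpa using hc) hGne.map (by
      intro h
      apply hGF
      rw [← h, Finset.map_map]
      ext a
      simp)
    refine ⟨e x, ?_, e y, Finset.mem_map_of_mem _ hy, ?_, (lk_iff d e x y).1 hl⟩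
    · obtain ⟨a, ha, hax⟩ := Finset.mem_map.1 hx
      rw [← hax]
      simpa using ha
    · intro h
      apply hyG
      exact Finset.mem_map.2 ⟨e y, h, by simp⟩
  · intro x hx y hy hl
    obtain ⟨x', hx', rfl⟩ := Finset.mem_map.1 hx
    refine h3 x' hx' (e.symm y) (fun h => hy ?_) ((lk_iff d e _ _).2 (by simpa using hl))
    exact Finset.mem_map.2 ⟨e.symm y, h, by simp⟩

theorem tc_map {F : Finset ℕ} (hF : TC (fun x y => d (e x) (e y)) F) :
    TC d (F.map e.toEmbedding) := by
  obtain ⟨h1, h2, h3⟩ := hF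
  refine ⟨h1.map, ?_, ?_⟩
  · intro x hx y hy hxy
    obtain ⟨x', hx', rfl⟩ := Finset.mem_map.1 hx
    obtain ⟨y', hy', rfl⟩ := Finset.mem_map.1 hy
    exact (tw_iff d e x' y').1 (h2 x' hx' y' hy' (fun h => hxy (by rw [h])))
  · intro x hx y hy hl
    obtain ⟨x', hx', rfl⟩ := Finset.mem_map.1 hx
    refine h3 x' hx' (e.symm y) (fun h => hy ?_) ((tw_iff d e _ _).2 (by simpa using hl))
    exact Finset.mem_map.2 ⟨e.symm y, h, by simp⟩

theorem dd_sub : DD (fun x y => d (e x) (e y)) ⊆ DD d := by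
  rintro n ⟨F, hn, hF⟩
  exact ⟨F.map e.toEmbedding, by rw [Finset.card_map, hn], cmp_map d e hF⟩

theorem tt_sub : TT (fun x y => d (e x) (e y)) ⊆ TT d := by
  rintro n ⟨F, hn, hF⟩
  exact ⟨F.map e.toEmbedding, by rw [Finset.card_map, hn], tc_map d e hF⟩

theorem main_V5 : StV5 := by
  intro C d e
  have hd : (fun x y => (fun x y => d (e x) (e y)) (e.symm x) (e.symm y)) = d := by
    funext x y; simp
  constructor
  · refine Subset.antisymm (dd_sub d e) ?_
    have h := dd_sub (fun x y => d (e x) (e y)) e.symm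
    rwa [hd] at h
  · refine Subset.antisymm (tt_sub d e) ?_
    have h := tt_sub (fun x y => d (e x) (e y)) e.symm
    rwa [hd] at h

end Run7.h930.V
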