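import Pool.Agent.Run7.h46.V.Defs

/-! Piece V8 (helper930): block sequences of the second kind give continuum many values of `TT`.
Adapted from piece V7 of helper921. -/

set_option autoImplicit false

namespace Run7.h930.V

open Run7.h46.V Set Filter Function

open Classical in
/-- the numbers of the chosen blocks -/
noncomputable def ph (X : Set ℕ) (n : ℕ) : ℕ := if n ∈ X then 2 * n + 1 else 2 * n

theorem ph_inj (X : Set ℕ) : Injective (ph X) := by
  intro m n h
  unfold ph at h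
  split_ifs at h <;> omega

theorem ph_lt (X : Set ℕ) {m n : ℕ} (h : m < n) : ph X m < ph X n := by
  unfold ph
  split_ifs <;> omega

theorem ph_mem (X : Set ℕ) (m n : ℕ) : ph X m = 2 * n + 1 ↔ m = n ∧ n ∈ X := by
  unfold ph
  split_ifs with h
  · constructor
    · intro h2
      have : m = n := by omega
      exact ⟨this, this ▸ h⟩
    · rintro ⟨rfl, _⟩; rfl
  · constructor
    · intro h2; omega
    · rintro ⟨rfl, h3⟩; exact absurd h3 h

theorem step8 (h2 : StV2) {C : Type} (d : ℕ → ℕ → C) (hS : Sw d)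
    (δ : Bool → Bool → C) (B : ℕ → Finset ℕ) (y : ℕ → ℕ)
    (hy : ∀ n, y n ∉ B n) (hcard2 : ∀ n, 2 ≤ (B n).card)
    (hdis : ∀ m n, m ≠ n → Disjoint (insert (y m) (B m)) (insert (y n) (B n)))
    (hcr : ∀ m n, m < n → (∀ x ∈ B n, ∀ x' ∈ B m, d x x' = δ true true) ∧
      (∀ x ∈ B n, d x (y m) = δ true false) ∧ (∀ x ∈ B m, d (y n) x = δ false true) ∧
      d (y n) (y m) = δ false false)
    (htt : ∀ n, ∀ x ∈ B n, ∀ x' ∈ B n, x ≠ x' → d x x' = δ true true)
    (hft : ∀ n, ∀ x ∈ B n, d (y n) x = δ false true)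
    (hs1 : ∀ x y, d x y = δ true true → d y x = δ true true)
    (hs2 : ∀ x y, d x y = δ false false → d y x = δ false false)
    (hs3 : ∀ x y, ¬ (d x y = δ true false ∧ d y x = δ false true)) (X : Set ℕ) :
    ∃ f : ℕ → ℕ, Injective f ∧
      TT (fun x y => d (f x) (f y)) = {1} ∪ {n | ∃ b, n = (B (ph X b)).card} := by
  classical
  let D : ℕ → Finset ℕ := fun n => insert (y (ph X n)) (B (ph X n))
  let U : Type := Σ n : ℕ, {x // x ∈ D n}
  have : Infinite U := by
    refine Infinite.of_injective (fun n : ℕ => (⟨n, ⟨y (ph X n), Finset.mem_insert_self _ _⟩⟩ : U)) ?_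
    intro m n h
    exact congrArg Sigma.fst h
  have : Countable U := by infer_instance
  obtain ⟨hden⟩ := nonempty_denumerable U
  let e : ℕ ≃ U := (Denumerable.eqv U).symm
  let f : ℕ → ℕ := fun s => (e s).2.1
  let blk : ℕ → ℕ := fun s => (e s).1
  let lb : ℕ → Bool := fun s => decide (f s ≠ y (ph X (blk s)))
  have hfD : ∀ s, f s ∈ D (blk s) := fun s => (e s).2.2
  have hlt : ∀ s, lb s = true ↔ f s ∈ B (ph X (blk s)) := by
    intro s
    show decide (f s ≠ y (ph X (blk s))) = true ↔ _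
    rw [decide_eq_true_iff]
    constructor
    · intro h
      rcases Finset.mem_insert.1 (hfD s) with h3 | h3
      · exact absurd h3 h
      · exact h3
    · intro h h3
      rw [h3] at h
      exact hy _ h
  have hlf : ∀ s, lb s = false ↔ f s = y (ph X (blk s)) := by
    intro s
    show decide (f s ≠ y (ph X (blk s))) = false ↔ _
    rw [decide_eq_false_iff_not, not_not]
  have hcoord : ∀ b x (hx : x ∈ D b), blk (e.symm ⟨b, ⟨x, hx⟩⟩) = b ∧
      f (e.symm ⟨b, ⟨x, hx⟩⟩) = x := by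
    intro b x hx
    have h : e (e.symm ⟨b, ⟨x, hx⟩⟩) = ⟨b, ⟨x, hx⟩⟩ := e.apply_symm_apply _
    show (e (e.symm ⟨b, ⟨x, hx⟩⟩)).1 = b ∧ (e (e.symm ⟨b, ⟨x, hx⟩⟩)).2.1 = x
    rw [h]
    exact ⟨rfl, rfl⟩
  have hfblk : ∀ s t, f s = f t → blk s = blk t := by
    intro s t h
    by_contra hne'
    have h3 : ph X (blk s) ≠ ph X (blk t) := fun h3 => hne' (ph_inj X h3)
    have h4 := Finset.disjoint_left.1 (hdis _ _ h3) (hfD s)
    exact h4 (h ▸ hfD t)
  have hext : ∀ u v : U, u.1 = v.1 → u.2.1 = v.2.1 → u = v := by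
    rintro ⟨a, x, hx⟩ ⟨b, y, hy⟩ h1 h2
    simp only at h1 h2
    subst h1
    subst h2
    rfl
  have hfinj : Injective f := by
    intro s t h
    exact e.injective (hext _ _ (hfblk s t h) h)
  have hset : ∀ b, f '' {x | blk x = b ∧ lb x = true} = (B (ph X b) : Set ℕ) := by
    intro b
    ext x
    constructor
    · rintro ⟨s, ⟨hs, hs2⟩, rfl⟩
      have := (hlt s).1 hs2
      rw [hs] at this
      exact this
    · intro hx
      have hx' : x ∈ D b := Finset.mem_insert_of_mem hx
      refine ⟨e.symm ⟨b, ⟨x, hx'⟩⟩, ⟨(hcoord b x hx').1, ?_⟩, (hcoord b x hx').2⟩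
      rw [hlt, (hcoord b x hx').1, (hcoord b x hx').2]
      exact hx
  have hcard : ∀ b, {x | blk x = b ∧ lb x = true}.ncard = (B (ph X b)).card := by
    intro b
    rw [← Set.ncard_coe_finset, ← hset b, Set.ncard_image_of_injective _ hfinj]
  refine ⟨f, hfinj, ?_⟩
  have hmain := h2 C (fun x y => d (f x) (f y)) blk lb δ ?_ ?_ ?_ ?_ ?_ ?_ ?_ ?_ ?_ ?_
  · rw [hmain]
    congr 1
    ext n
    simp only [mem_ofPred_eq]
    constructor
    · rintro ⟨b, rfl⟩
      exact ⟨b, hcard b⟩
    · rintro ⟨b, rfl⟩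
      exact ⟨b, (hcard b).symm⟩
  · intro x y x' y' h
    exact hS _ _ _ _ h
  · intro b
    have : (f '' {x | blk x = b}).Finite := by
      refine (Finset.finite_toSet (D b)).subset ?_
      rintro _ ⟨s, hs, rfl⟩
      have h3 := hfD s
      rw [show blk s = b from hs] at h3
      exact h3
    exact this.of_finite_image hfinj.injOn
  · intro b
    have hx' : y (ph X b) ∈ D b := Finset.mem_insert_self _ _
    refine ⟨e.symm ⟨b, ⟨_, hx'⟩⟩, (hcoord b _ hx').1, ?_, ?_⟩
    · rw [hlf, (hcoord b _ hx').1, (hcoord b _ hx').2]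
    · intro y' hy' hl
      apply hfinj
      rw [(hlf y').1 hl, hy', (hcoord b _ hx').2]
  · intro b
    rw [hcard]
    exact hcard2 _
  · intro x z hxz
    have hph := ph_lt X hxz
    obtain ⟨c1, c2, c3, c4⟩ := hcr _ _ hph
    show d (f x) (f z) = δ (lb x) (lb z)
    cases hx : lb x <;> cases hz : lb z
    · rw [(hlf x).1 hx, (hlf z).1 hz]; exact c4
    · rw [(hlf x).1 hx]; exact c3 _ ((hlt z).1 hz)
    · rw [(hlf z).1 hz]; exact c2 _ ((hlt x).1 hx)
    · exact c1 _ ((hlt x).1 hx) _ ((hlt z).1 hz)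
  · intro x z hne hx hz hb
    have h3 := (hlt z).1 hz
    rw [← hb] at h3
    exact htt _ _ ((hlt x).1 hx) _ h3 (fun h => hne (hfinj h))
  · intro x z hx hz hb
    have h3 := (hlt x).1 hx
    rw [hb] at h3
    show d (f z) (f x) = _
    rw [(hlf z).1 hz]
    exact hft _ _ h3
  · intro x z; exact hs1 _ _
  · intro x z; exact hs2 _ _
  · intro x z; exact hs3 _ _

theorem main_V8 (h2 : StV2) : StV8 := by
  intro C d hS hB
  obtain ⟨δ, B, y, hy, hB0, hmono, hdis, hcr, htt, hft, hs1, hs2, hs3⟩ := hB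
  have hcard2 : ∀ n, 2 ≤ (B n).card := by
    intro n
    rcases Nat.eq_zero_or_pos n with h | h
    · rw [h]; exact hB0
    · have := hmono 0 n h
      omega
  have hcinj : ∀ m n, (B m).card = (B n).card → m = n := by
    intro m n h
    rcases lt_trichotomy m n with h2 | h2 | h2
    · have := hmono m n h2; omega
    · exact h2
    · have := hmono n m h2; omega
  choose f hf hTT using step8 h2 d hS δ B y hy hcard2 hdis hcr htt hft hs1 hs2 hs3
  refine ⟨f, hf, ?_⟩
  have key : ∀ X n, (B (2 * n + 1)).card ∈ TT (fun x y => d (f X x) (f X y)) ↔ n ∈ X := by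
    intro X n
    rw [hTT X]
    constructor
    · rintro (h | ⟨b, hb⟩)
      · have h3 := hcard2 (2 * n + 1)
        rw [Set.mem_singleton_iff] at h
        omega
      · have h3 := hcinj _ _ hb
        exact ((ph_mem X b n).1 h3.symm).2
    · intro hn
      exact Or.inr ⟨n, by rw [(ph_mem X n n).2 ⟨rfl, hn⟩]⟩
  intro X Y hXY h
  apply hXY
  ext n
  rw [← key X n, ← key Y n, h]

end Run7.h930.V
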